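import Pool.Agent.W606.PS.Stm

set_option autoImplicit false

open Set Relation

namespace Pool.Agent.W382.PS.Fin

open Pool.Agent.W606.PS

theorem rtg_of_reachable {V : Type} {G : SimpleGraph V} {u v : V} (h : G.Reachable u v) :
    ReflTransGen (fun a b => G.Adj a b ∧ a ∈ (univ : Set V) ∧ b ∈ (univ : Set V)) u v := by
  obtain ⟨p⟩ := h
  induction p with
  | nil => exact ReflTransGen.refl
  | cons e _ ih => exact ReflTransGen.head ⟨e, mem_univ _, mem_univ _⟩ ih

theorem con_of_connected {V : Type} {G : SimpleGraph V} (h : G.Connected) : Con G univ := by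
  have := h.nonempty
  exact ⟨univ_nonempty, fun u _ v _ => rtg_of_reachable (h.preconnected u v)⟩

theorem td_induce {V : Type} {G : SimpleGraph V} {k : ℕ} (S : Set V) (h : TD G k) :
    TD (G.induce S) k := by
  classical
  obtain ⟨m, T, B, hT, hE, hC, hk⟩ := h
  refine ⟨m, T, fun t => (B t).subtype (· ∈ S), hT, ?_, ?_, ?_⟩
  · intro u v huv
    obtain ⟨t, h1, h2⟩ := hE u v huv
    exact ⟨t, by simpa using h1, by simpa using h2⟩
  · intro v
    have : {t | v ∈ (B t).subtype (· ∈ S)} = {t | (v : V) ∈ B t} := by
      ext t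
      simp
    rw [this]
    exact hC v
  · intro t
    rw [Finset.card_subtype]
    exact (Finset.card_filter_le _ _).trans (hk t)

theorem drawn_induce {V : Type} {G : SimpleGraph V} (S : Set V) (h : Drawn G) :
    Drawn (G.induce S) := by
  obtain ⟨f, γ, h1, h2, h3, h4⟩ := h
  refine ⟨fun v => f v, fun u v h => γ u v h, ?_, ?_, ?_, ?_⟩
  · exact h1.comp Subtype.val_injective
  · intro u v h
    exact h2 u v h
  · intro u v h s w hw
    rcases h3 u v h s w hw with h | h
    · exact Or.inl (Subtype.ext h)
    · exact Or.inr (Subtype.ext h)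
  · intro u v x y h h' s t hst hne
    have hne' : s((u : V), (v : V)) ≠ s((x : V), (y : V)) := by
      intro he
      apply hne
      have hinj := Sym2.map.injective (Subtype.val_injective (p := (· ∈ S)))
      apply hinj
      simpa using he
    obtain ⟨w, hw1, hw2, hw3⟩ := h4 u v x y h h' s t hst hne'
    rcases hw1 with rfl | rfl
    · refine ⟨u, Or.inl rfl, ?_, hw3⟩
      rcases hw2 with h | h
      · exact Or.inl (Subtype.ext h)
      · exact Or.inr (Subtype.ext h)
    · refine ⟨v, Or.inr rfl, ?_, hw3⟩
      rcases hw2 with h | h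
      · exact Or.inl (Subtype.ext h)
      · exact Or.inr (Subtype.ext h)

theorem main (h1 : S_TOP) (h2 : S_CORE) (h3 : S_UNION) : S_FIN := by
  classical
  intro A _ G hG k hk hor
  refine h3 A G (2 * k) 36 ?_
  intro K
  have hcon : Con (G.induce K.supp) univ := con_of_connected K.connected_toSimpleGraph
  obtain ⟨W, T, _, G', tv, hS, hV⟩ := h1 K.supp (G.induce K.supp) hcon (drawn_induce _ hG)
  refine h2 K.supp W T (G.induce K.supp) G' tv hS hV hcon k hk ?_
  rcases hor with h | h
  · exact Or.inl (td_induce _ h)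
  · right
    refine le_trans ?_ h
    exact Fintype.card_le_of_injective _ Subtype.val_injective

end Pool.Agent.W382.PS.Fin
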